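import Mathlib

/-! The core of a domain. -/

set_option autoImplicit false

open scoped ContDiff

namespace Pool.Agent.R234.Core

variable {E : Type*} [NormedAddCommGroup E] [NormedSpace ℂ E]

/-- The Levi form of a real function `φ` at `z` in the direction `ξ`, that is
`∑ ∂²φ/∂z_j∂z̄_k (z) ξ_j ξ̄_k = (D²φ(z)(ξ,ξ) + D²φ(z)(iξ,iξ)) / 4`
(a quarter of the Laplacian at `0` of `ζ ↦ φ(z + ζ ξ)`, `ζ` complex). -/
noncomputable def levi (φ : E → ℝ) (z ξ : E) : ℝ :=
  (fderiv ℝ (fderiv ℝ φ) z ξ ξ + fderiv ℝ (fderiv ℝ φ) z (Complex.I • ξ) (Complex.I • ξ)) / 4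

/-- `φ` is a smooth plurisubharmonic function on `Ω` that is bounded from above. -/
structure MemF (Ω : Set E) (φ : E → ℝ) : Prop where
  smooth : ContDiffOn ℝ ∞ φ Ω
  psh : ∀ z ∈ Ω, ∀ ξ : E, 0 ≤ levi φ z ξ
  bdd : BddAbove (φ '' Ω)

/-- `φ` is strictly plurisubharmonic at `z`: its Levi form at `z` is positive definite. -/
def StrictAt (φ : E → ℝ) (z : E) : Prop := ∀ ξ : E, ξ ≠ 0 → 0 < levi φ z ξ

/-- The core of `Ω`: the points of `Ω` at which no smooth plurisubharmonic function on `Ω` that is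
bounded from above is strictly plurisubharmonic. -/
def core (Ω : Set E) : Set E := {z | z ∈ Ω ∧ ∀ φ : E → ℝ, MemF Ω φ → ¬ StrictAt φ z}

end Pool.Agent.R234.Core
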