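import Mathlib
import Pool.Agent.R234.Core.Defs

set_option autoImplicit false

open scoped ContDiff Topology
open Set Filter

namespace Pool.Agent.R234.Core

variable {E : Type*} [NormedAddCommGroup E] [NormedSpace ℂ E]

/-- second derivative along a line -/
theorem line_deriv2 {φ : E → ℝ} {z : E} (h : ContDiffAt ℝ 2 φ z) (ξ : E) :
    deriv (deriv (fun t : ℝ => φ (z + t • ξ))) 0 = fderiv ℝ (fderiv ℝ φ) z ξ ξ := by
  have hline : ∀ t : ℝ, HasDerivAt (fun t : ℝ => z + t • ξ) ξ t := by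
    intro t
    have := ((hasDerivAt_id t).smul_const ξ).const_add z
    simpa using this
  have hcont : Tendsto (fun t : ℝ => z + t • ξ) (𝓝 0) (𝓝 z) := by
    have := (hline 0).continuousAt.tendsto
    simpa using this
  have hev : ∀ᶠ t : ℝ in 𝓝 0, deriv (fun t : ℝ => φ (z + t • ξ)) t = fderiv ℝ φ (z + t • ξ) ξ := by
    have h1 : ∀ᶠ w in 𝓝 z, DifferentiableAt ℝ φ w := by
      have h2 := h.eventually (by simp)
      filter_upwards [h2] with w hw
      exact hw.differentiableAt (by norm_num)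
    filter_upwards [hcont.eventually h1] with t ht
    exact (ht.hasFDerivAt.comp_hasDerivAt t (hline t)).deriv
  rw [EventuallyEq.deriv_eq hev]
  have h3 : DifferentiableAt ℝ (fderiv ℝ φ) z :=
    (h.fderiv_right (m := 1) (by norm_num)).differentiableAt (by norm_num)
  have h4 : HasDerivAt (fun t : ℝ => fderiv ℝ φ (z + t • ξ)) (fderiv ℝ (fderiv ℝ φ) z ξ) 0 := by
    have h5 : HasFDerivAt (fderiv ℝ φ) (fderiv ℝ (fderiv ℝ φ) z) (z + (0 : ℝ) • ξ) := by
      simpa using h3.hasFDerivAt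
    exact h5.comp_hasDerivAt 0 (hline 0)
  have h6 : HasDerivAt (fun t : ℝ => fderiv ℝ φ (z + t • ξ) ξ) (fderiv ℝ (fderiv ℝ φ) z ξ ξ) 0 := by
    have := h4.clm_apply (hasDerivAt_const (0 : ℝ) ξ)
    simpa using this
  exact h6.deriv

/-- second derivative test -/
theorem deriv2_nonpos {h : ℝ → ℝ} (hc : ContinuousAt h 0) (hm : IsLocalMax h 0) :
    deriv (deriv h) 0 ≤ 0 := by
  by_contra hcon
  push Not at hcon
  have h1 := isLocalMin_of_deriv_deriv_pos hcon hm.deriv_eq_zero hc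
  have h2 : h =ᶠ[𝓝 0] fun _ => h 0 := by
    filter_upwards [h1, hm] with t h3 h4
    exact le_antisymm h4 h3
  have h3 : deriv h =ᶠ[𝓝 0] fun _ => 0 := by
    refine h2.deriv.trans (Eventually.of_forall fun t => ?_)
    simp
  rw [h3.deriv_eq] at hcon
  simp at hcon

theorem D2_nonpos {φ : E → ℝ} {z : E} (h : ContDiffAt ℝ 2 φ z) (hm : IsLocalMax φ z) (ξ : E) :
    fderiv ℝ (fderiv ℝ φ) z ξ ξ ≤ 0 := by
  rw [← line_deriv2 h ξ]
  have hcont : ContinuousAt (fun t : ℝ => z + t • ξ) 0 := by fun_prop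
  have hz : z + (0 : ℝ) • ξ = z := by simp
  refine deriv2_nonpos ?_ ?_
  · refine ContinuousAt.comp (g := φ) ?_ hcont
    rw [hz]
    exact h.continuousAt
  · have h1 : Tendsto (fun t : ℝ => z + t • ξ) (𝓝 0) (𝓝 z) := by
      have := hcont.tendsto
      rwa [hz] at this
    have h2 := h1.eventually hm
    filter_upwards [h2] with t ht
    simpa using ht

theorem levi_nonpos {φ : E → ℝ} {z : E} (h : ContDiffAt ℝ 2 φ z) (hm : IsLocalMax φ z) (ξ : E) :
    levi φ z ξ ≤ 0 := by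
  unfold levi
  linarith [D2_nonpos h hm ξ, D2_nonpos h hm (Complex.I • ξ)]

theorem D2_add {f g : E → ℝ} {z : E} (hf : ContDiffAt ℝ 2 f z) (hg : ContDiffAt ℝ 2 g z) (ξ : E) :
    fderiv ℝ (fderiv ℝ (fun w => f w + g w)) z ξ ξ =
      fderiv ℝ (fderiv ℝ f) z ξ ξ + fderiv ℝ (fderiv ℝ g) z ξ ξ := by
  have h1 : ∀ {f : E → ℝ}, ContDiffAt ℝ 2 f z → ∀ᶠ w in 𝓝 z, DifferentiableAt ℝ f w := by
    intro f hf
    filter_upwards [hf.eventually (by simp)] with w hw
    exact hw.differentiableAt (by norm_num)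
  have h2 : ∀ {f : E → ℝ}, ContDiffAt ℝ 2 f z → DifferentiableAt ℝ (fderiv ℝ f) z := fun hf =>
    (hf.fderiv_right (m := 1) (by norm_num)).differentiableAt (by norm_num)
  have h3 : fderiv ℝ (fun w => f w + g w) =ᶠ[𝓝 z] fun w => fderiv ℝ f w + fderiv ℝ g w := by
    filter_upwards [h1 hf, h1 hg] with w hw1 hw2
    exact fderiv_fun_add hw1 hw2
  rw [h3.fderiv_eq, fderiv_fun_add (h2 hf) (h2 hg)]
  rfl

theorem D2_const_mul {f : E → ℝ} {z : E} (hf : ContDiffAt ℝ 2 f z) (c : ℝ) (ξ : E) :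
    fderiv ℝ (fderiv ℝ (fun w => c * f w)) z ξ ξ = c * fderiv ℝ (fderiv ℝ f) z ξ ξ := by
  have h1 : ∀ᶠ w in 𝓝 z, DifferentiableAt ℝ f w := by
    filter_upwards [hf.eventually (by simp)] with w hw
    exact hw.differentiableAt (by norm_num)
  have h2 : DifferentiableAt ℝ (fderiv ℝ f) z :=
    (hf.fderiv_right (m := 1) (by norm_num)).differentiableAt (by norm_num)
  have h3 : fderiv ℝ (fun w => c * f w) =ᶠ[𝓝 z] fun w => c • fderiv ℝ f w := by
    filter_upwards [h1] with w hw1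
    exact fderiv_const_mul hw1 c
  rw [h3.fderiv_eq, fderiv_fun_const_smul h2]
  rfl

theorem levi_add {f g : E → ℝ} {z : E} (hf : ContDiffAt ℝ 2 f z) (hg : ContDiffAt ℝ 2 g z) (ξ : E) :
    levi (fun w => f w + g w) z ξ = levi f z ξ + levi g z ξ := by
  unfold levi
  rw [D2_add hf hg, D2_add hf hg]
  ring

theorem levi_const_mul {f : E → ℝ} {z : E} (hf : ContDiffAt ℝ 2 f z) (c : ℝ) (ξ : E) :
    levi (fun w => c * f w) z ξ = c * levi f z ξ := by
  unfold levi
  rw [D2_const_mul hf, D2_const_mul hf]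
  ring

theorem levi_const (c : ℝ) (z ξ : E) : levi (fun _ : E => c) z ξ = 0 := by
  unfold levi
  have h : fderiv ℝ (fun _ : E => c) = fun _ => 0 := by
    funext w
    simp
  rw [h]
  simp

theorem levi_congr {f g : E → ℝ} {z : E} (h : f =ᶠ[𝓝 z] g) (ξ : E) : levi f z ξ = levi g z ξ := by
  unfold levi
  rw [h.fderiv.fderiv_eq]

/-- restriction to a complex line -/
theorem levi_line {φ : E → ℝ} {c ξ : E} {ζ : ℂ} (h : ContDiffAt ℝ 2 φ (c + ζ • ξ)) (η : ℂ) :
    levi (fun τ : ℂ => φ (c + τ • ξ)) ζ η = levi φ (c + ζ • ξ) (η • ξ) := by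
  have hsm : ContDiff ℝ 2 (fun τ : ℂ => c + τ • ξ) := by
    have : ContDiff ℝ 2 (fun τ : ℂ => τ • ξ) := contDiff_id.smul contDiff_const
    exact contDiff_const.add this
  have h1 : ContDiffAt ℝ 2 (fun τ : ℂ => φ (c + τ • ξ)) ζ :=
    ContDiffAt.comp (g := φ) ζ h hsm.contDiffAt
  unfold levi
  rw [← line_deriv2 h1, ← line_deriv2 h1, ← line_deriv2 h, ← line_deriv2 h]
  have e1 : ∀ θ : ℂ, (fun t : ℝ => φ (c + (ζ + t • θ) • ξ)) =
      fun t : ℝ => φ (c + ζ • ξ + t • (θ • ξ)) := by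
    intro θ
    funext t
    congr 1
    rw [add_smul, add_assoc, smul_assoc]
  rw [e1 η, e1 (Complex.I • η)]
  have e2 : (Complex.I • η) • ξ = Complex.I • η • ξ := smul_assoc _ _ _
  rw [e2]

/-- the Levi form of the square modulus of a holomorphic function -/
theorem levi_norm_sq {g : E → ℂ} {z : E} (h : ContDiffAt ℂ 2 g z) (ξ : E) :
    levi (fun w => ‖g w‖ ^ 2) z ξ = ‖fderiv ℂ g z ξ‖ ^ 2 := by
  have hr : ContDiffAt ℝ 2 (fun w => ‖g w‖ ^ 2) z := (h.restrict_scalars ℝ).norm_sq ℝ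
  have h1 : ∀ᶠ w in 𝓝 z, DifferentiableAt ℂ g w := by
    filter_upwards [h.eventually (by simp)] with w hw
    exact hw.differentiableAt (by norm_num)
  have h2 : DifferentiableAt ℂ (fderiv ℂ g) z :=
    (h.fderiv_right (m := 1) (by norm_num)).differentiableAt (by norm_num)
  have key : ∀ θ : E, fderiv ℝ (fderiv ℝ (fun w => ‖g w‖ ^ 2)) z θ θ =
      2 * ‖fderiv ℂ g z θ‖ ^ 2 + 2 * inner ℝ (g z) (fderiv ℂ (fderiv ℂ g) z θ θ) := by
    intro θ
    rw [← line_deriv2 hr θ]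
    have hline : ∀ t : ℝ, HasDerivAt (fun t : ℝ => z + t • θ) θ t := by
      intro t
      have := ((hasDerivAt_id t).smul_const θ).const_add z
      simpa using this
    have hcont : Tendsto (fun t : ℝ => z + t • θ) (𝓝 0) (𝓝 z) := by
      have := (hline 0).continuousAt.tendsto
      simpa using this
    have hd1 : ∀ᶠ t : ℝ in 𝓝 0, HasDerivAt (fun t : ℝ => g (z + t • θ))
        (fderiv ℂ g (z + t • θ) θ) t := by
      filter_upwards [hcont.eventually h1] with t ht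
      exact (ht.hasFDerivAt.restrictScalars ℝ).comp_hasDerivAt t (hline t)
    have hev : ∀ᶠ t : ℝ in 𝓝 0, deriv (fun t : ℝ => ‖g (z + t • θ)‖ ^ 2) t =
        2 * inner ℝ (g (z + t • θ)) (fderiv ℂ g (z + t • θ) θ) := by
      filter_upwards [hd1] with t ht
      exact ht.norm_sq.deriv
    rw [EventuallyEq.deriv_eq hev]
    have h3 : HasFDerivAt (fderiv ℂ g) (fderiv ℂ (fderiv ℂ g) z) (z + (0 : ℝ) • θ) := by
      simpa using h2.hasFDerivAt
    have h5 : HasDerivAt (fun t : ℝ => fderiv ℂ g (z + t • θ) θ)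
        (fderiv ℂ (fderiv ℂ g) z θ θ) 0 := by
      have h7 : HasFDerivAt (fun w => fderiv ℂ g w θ)
          ((ContinuousLinearMap.apply ℂ ℂ θ).comp (fderiv ℂ (fderiv ℂ g) z))
          (z + (0 : ℝ) • θ) :=
        (ContinuousLinearMap.apply ℂ ℂ θ).hasFDerivAt.comp _ h3
      exact (h7.restrictScalars ℝ).comp_hasDerivAt 0 (hline 0)
    have h6 := (hd1.self_of_nhds.inner ℝ h5).const_mul 2
    rw [h6.deriv]
    simp only [zero_smul, add_zero]
    rw [real_inner_self_eq_norm_sq]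
    ring
  unfold levi
  rw [key ξ, key (Complex.I • ξ)]
  have e1 : fderiv ℂ g z (Complex.I • ξ) = Complex.I * fderiv ℂ g z ξ := by
    rw [map_smul, smul_eq_mul]
  have e2 : fderiv ℂ (fderiv ℂ g) z (Complex.I • ξ) (Complex.I • ξ) =
      -fderiv ℂ (fderiv ℂ g) z ξ ξ := by
    rw [map_smul, map_smul, smul_apply, smul_smul, Complex.I_mul_I, neg_smul, one_smul]
  rw [e1, e2, norm_mul, Complex.norm_I, one_mul, inner_neg_right]
  ring

end Pool.Agent.R234.Core
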