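import Mathlib
import Pool.Agent.R234.Core.A

set_option autoImplicit false

open scoped ContDiff Topology Laplacian
open Set Filter

namespace Pool.Agent.R234.Core

theorem levi_log {a ζ : ℂ} (h : ζ ≠ a) : levi (fun τ : ℂ => Real.log ‖τ - a‖) ζ 1 = 0 := by
  have h1 : InnerProductSpace.HarmonicAt (fun τ : ℂ => Real.log ‖τ - a‖) ζ :=
    AnalyticAt.harmonicAt_log_norm (f := fun τ => τ - a) (by fun_prop) (sub_ne_zero.2 h)
  have h2 := h1.2.self_of_nhds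
  rw [InnerProductSpace.laplacian_eq_iteratedFDeriv_complexPlane] at h2
  simp only [iteratedFDeriv_two_apply] at h2
  unfold levi
  simp only [smul_eq_mul, mul_one]
  simp at h2
  rw [h2, zero_div]

theorem contDiffAt_log {a ζ : ℂ} (h : ζ ≠ a) :
    ContDiffAt ℝ 2 (fun τ : ℂ => Real.log ‖τ - a‖) ζ := by
  have h1 : InnerProductSpace.HarmonicAt (fun τ : ℂ => Real.log ‖τ - a‖) ζ :=
    AnalyticAt.harmonicAt_log_norm (f := fun τ => τ - a) (by fun_prop) (sub_ne_zero.2 h)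
  exact h1.1

/-- the maximum principle on an annulus -/
theorem annulus {f : ℂ → ℝ} {a : ℂ} {r R B M : ℝ} (hr : 0 < r) (hrR : r < R)
    (hf : ∀ ζ : ℂ, r ≤ ‖ζ - a‖ → ‖ζ - a‖ ≤ R → ContDiffAt ℝ 2 f ζ)
    (hΔ : ∀ ζ : ℂ, r ≤ ‖ζ - a‖ → ‖ζ - a‖ ≤ R → 0 ≤ levi f ζ 1)
    (hB : ∀ ζ : ℂ, ‖ζ - a‖ = r → f ζ ≤ B) (hM : ∀ ζ : ℂ, ‖ζ - a‖ = R → f ζ ≤ M)
    {ζ : ℂ} (h1 : r ≤ ‖ζ - a‖) (h2 : ‖ζ - a‖ ≤ R) :
    f ζ ≤ B + (M - B) * (Real.log ‖ζ - a‖ - Real.log r) / (Real.log R - Real.log r) := by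
  set K : Set ℂ := {ζ | r ≤ ‖ζ - a‖ ∧ ‖ζ - a‖ ≤ R} with hK
  have hKc : IsCompact K := by
    have h3 : K = Metric.closedBall a R ∩ {ζ | r ≤ ‖ζ - a‖} := by
      ext ζ
      simp only [hK, mem_ofPred_eq, mem_inter_iff, mem_closedBall_iff_norm]
      tauto
    rw [h3]
    exact (isCompact_closedBall a R).inter_right
      (isClosed_le continuous_const (by fun_prop))
  have hlog : 0 < Real.log R - Real.log r := sub_pos.2 (Real.log_lt_log hr hrR)
  set c : ℝ := (M - B) / (Real.log R - Real.log r) with hc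
  have hcR : c * (Real.log R - Real.log r) = M - B := by
    rw [hc]
    field_simp
  have hRr : 0 < R := hr.trans hrR
  have hcd : ∀ ζ ∈ K, ContDiffAt ℝ 2 (fun ζ : ℂ => -c * Real.log ‖ζ - a‖) ζ := by
    intro ζ hζ
    have : ζ ≠ a := by
      intro h
      have := hζ.1
      rw [h, sub_self, norm_zero] at this
      linarith
    exact contDiffAt_const.mul (contDiffAt_log this)
  have hcd3 : ∀ ε : ℝ, ∀ ζ : ℂ, ContDiffAt ℝ 2 (fun ζ : ℂ => ε * ‖ζ - a‖ ^ 2) ζ := by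
    intro ε ζ
    have : ContDiff ℝ 2 (fun ζ : ℂ => ‖ζ - a‖ ^ 2) :=
      (contDiff_id.sub contDiff_const).norm_sq ℝ
    exact contDiffAt_const.mul this.contDiffAt
  have main : ∀ ε : ℝ, 0 < ε → f ζ - c * Real.log ‖ζ - a‖ ≤ B - c * Real.log r + ε * R ^ 2 := by
    intro ε hε
    set G : ℂ → ℝ := fun ζ => (f ζ + -c * Real.log ‖ζ - a‖) + ε * ‖ζ - a‖ ^ 2 with hG
    have hGc : ∀ ζ ∈ K, ContDiffAt ℝ 2 G ζ := fun ζ hζ =>
      ((hf ζ hζ.1 hζ.2).add (hcd ζ hζ)).add (hcd3 ε ζ)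
    have hGcont : ContinuousOn G K := fun ζ hζ => (hGc ζ hζ).continuousAt.continuousWithinAt
    obtain ⟨ζ₀, hζ₀, hmax⟩ := hKc.exists_isMaxOn ⟨ζ, h1, h2⟩ hGcont
    have hle : G ζ ≤ G ζ₀ := hmax ⟨h1, h2⟩
    have hGζ : f ζ - c * Real.log ‖ζ - a‖ ≤ G ζ := by
      simp only [hG]
      have : 0 ≤ ε * ‖ζ - a‖ ^ 2 := by positivity
      linarith
    refine hGζ.trans (hle.trans ?_)
    rcases eq_or_lt_of_le hζ₀.1 with e1 | e1
    · have h4 := hB ζ₀ e1.symm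
      simp only [hG]
      rw [← e1]
      have : ε * r ^ 2 ≤ ε * R ^ 2 := by gcongr
      linarith
    · rcases eq_or_lt_of_le hζ₀.2 with e2 | e2
      · have h4 := hM ζ₀ e2
        simp only [hG]
        rw [e2]
        linarith
      · exfalso
        have hopen : K ∈ 𝓝 ζ₀ := by
          have h5 : {ζ : ℂ | r < ‖ζ - a‖ ∧ ‖ζ - a‖ < R} ∈ 𝓝 ζ₀ := by
            refine IsOpen.mem_nhds ?_ ⟨e1, e2⟩
            exact (isOpen_lt continuous_const (by fun_prop : Continuous fun ζ : ℂ => ‖ζ - a‖)).inter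
              (isOpen_lt (by fun_prop : Continuous fun ζ : ℂ => ‖ζ - a‖) continuous_const)
          filter_upwards [h5] with ζ hζ
          exact ⟨hζ.1.le, hζ.2.le⟩
        have hloc : IsLocalMax G ζ₀ := hmax.isLocalMax hopen
        have h6 := levi_nonpos (hGc ζ₀ hζ₀) hloc 1
        have hne : ζ₀ ≠ a := by
          intro h
          rw [h, sub_self, norm_zero] at e1
          linarith
        have h7 : levi (fun ζ : ℂ => ‖ζ - a‖ ^ 2) ζ₀ 1 = 1 := by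
          rw [levi_norm_sq (g := fun ζ => ζ - a) (by fun_prop)]
          rw [fderiv_sub_const, fderiv_fun_id]
          simp
        have h8 : ContDiffAt ℝ 2 (fun ζ : ℂ => ‖ζ - a‖ ^ 2) ζ₀ :=
          ((contDiff_id.sub contDiff_const).norm_sq ℝ).contDiffAt
        simp only [hG] at h6
        rw [levi_add ((hf ζ₀ hζ₀.1 hζ₀.2).add (hcd ζ₀ hζ₀)) (hcd3 ε ζ₀),
          levi_add (hf ζ₀ hζ₀.1 hζ₀.2) (hcd ζ₀ hζ₀), levi_const_mul (contDiffAt_log hne),
          levi_log hne, levi_const_mul h8, h7] at h6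
        have h9 := hΔ ζ₀ hζ₀.1 hζ₀.2
        linarith
  have h3 : f ζ - c * Real.log ‖ζ - a‖ ≤ B - c * Real.log r := by
    refine le_of_forall_pos_le_add fun ε hε => ?_
    have h4 := main (ε / R ^ 2) (by positivity)
    have h5 : ε / R ^ 2 * R ^ 2 = ε := by field_simp
    linarith
  have h4 : (M - B) * (Real.log ‖ζ - a‖ - Real.log r) / (Real.log R - Real.log r) =
      c * (Real.log ‖ζ - a‖ - Real.log r) := by
    rw [hc]
    ring
  rw [h4]
  linarith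

end Pool.Agent.R234.Core
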