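import Mathlib
import Pool.Agent.R234.Core.B

set_option autoImplicit false

open scoped ContDiff Topology
open Set Filter

namespace Pool.Agent.R234.Core

/-- two dimensional complex space -/
abbrev C2 : Type := EuclideanSpace ℂ (Fin 2)

/-- the unit bidisc -/
def bidisc : Set C2 := {z | ‖z 0‖ < 1 ∧ ‖z 1‖ < 1}

/-- the bidisc together with the part of `|z₀ z₁| < 1`, `|z₁| < 1` off the line `z₁ = 0` -/
def Om : Set C2 := bidisc ∪ {z | z 1 ≠ 0 ∧ ‖z 1‖ < 1 ∧ ‖z 0 * z 1‖ < 1}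

/-- the point `(a, b)` -/
noncomputable def pt (a b : ℂ) : C2 :=
  b • EuclideanSpace.single 1 1 + a • EuclideanSpace.single 0 1

@[simp] theorem pt_zero (a b : ℂ) : pt a b 0 = a := by simp [pt]

@[simp] theorem pt_one (a b : ℂ) : pt a b 1 = b := by simp [pt]

theorem eq_pt (z : C2) : z = pt (z 0) (z 1) := by
  ext i
  fin_cases i
  · simp
  · simp

theorem continuous_pt : Continuous fun p : ℂ × ℂ => pt p.1 p.2 := by
  unfold pt
  fun_prop

theorem isOpen_bidisc : IsOpen bidisc := by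
  unfold bidisc
  exact (isOpen_lt (by fun_prop : Continuous fun z : C2 => ‖z 0‖) continuous_const).inter
    (isOpen_lt (by fun_prop : Continuous fun z : C2 => ‖z 1‖) continuous_const)

theorem isOpen_Om : IsOpen Om := by
  unfold Om
  refine isOpen_bidisc.union ?_
  have h1 : IsOpen {z : C2 | z 1 ≠ 0} :=
    isOpen_ne_fun (by fun_prop : Continuous fun z : C2 => z 1) continuous_const
  exact h1.inter
    ((isOpen_lt (by fun_prop : Continuous fun z : C2 => ‖z 1‖) continuous_const).inter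
    (isOpen_lt (by fun_prop : Continuous fun z : C2 => ‖z 0 * z 1‖) continuous_const))

theorem zero_mem_bidisc : (0 : C2) ∈ bidisc := by
  simp [bidisc]

theorem bidisc_subset : bidisc ⊆ Om := subset_union_left

theorem star_bidisc : StarConvex ℝ 0 bidisc := by
  rw [starConvex_zero_iff]
  rintro z ⟨h1, h2⟩ t ht0 ht1
  have e : ∀ i, ‖(t • z) i‖ ≤ ‖z i‖ := by
    intro i
    rw [PiLp.smul_apply, norm_smul, Real.norm_of_nonneg ht0]
    exact mul_le_of_le_one_left (norm_nonneg _) ht1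
  exact ⟨(e 0).trans_lt h1, (e 1).trans_lt h2⟩

theorem star_Om : StarConvex ℝ 0 Om := by
  rw [starConvex_zero_iff]
  rintro z hz t ht0 ht1
  rcases hz with hz | ⟨h1, h2, h3⟩
  · exact Or.inl (starConvex_zero_iff.1 star_bidisc hz ht0 ht1)
  · rcases eq_or_lt_of_le ht0 with h0 | h0
    · rw [← h0, zero_smul]
      exact Or.inl zero_mem_bidisc
    · have e : ∀ i, ‖(t • z) i‖ ≤ ‖z i‖ := by
        intro i
        rw [PiLp.smul_apply, norm_smul, Real.norm_of_nonneg ht0]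
        exact mul_le_of_le_one_left (norm_nonneg _) ht1
      refine Or.inr ⟨?_, (e 1).trans_lt h2, ?_⟩
      · rw [PiLp.smul_apply]
        exact smul_ne_zero h0.ne' h1
      · refine lt_of_le_of_lt ?_ h3
        rw [norm_mul, norm_mul]
        exact mul_le_mul (e 0) (e 1) (norm_nonneg _) (norm_nonneg _)

theorem isConnected_bidisc : IsConnected bidisc :=
  (star_bidisc.isPathConnected zero_mem_bidisc).isConnected

theorem isConnected_Om : IsConnected Om :=
  (star_Om.isPathConnected (bidisc_subset zero_mem_bidisc)).isConnected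

theorem slice_mem {a b : ℂ} (hb0 : b ≠ 0) (hb1 : ‖b‖ < 1) (ha : ‖a‖ * ‖b‖ < 1) : pt a b ∈ Om := by
  refine Or.inr ⟨?_, ?_, ?_⟩
  · simpa using hb0
  · simpa using hb1
  · simpa using ha

/-- the key inequality -/
theorem le_of_memF {φ : C2 → ℝ} (hφ : MemF Om φ) {a ζ : ℂ} (ha : ‖a‖ < 1) (hζ : ‖ζ‖ < 1) :
    φ (pt ζ 0) ≤ φ (pt a 0) := by
  rcases eq_or_ne ζ a with h | hne
  · rw [h]
  obtain ⟨M, hM⟩ := hφ.bdd
  have hM' : ∀ z ∈ Om, φ z ≤ M := fun z hz => hM (mem_image_of_mem φ hz)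
  have hcdiff : ∀ z ∈ Om, ContDiffAt ℝ 2 φ z := fun z hz =>
    ((hφ.smooth z hz).contDiffAt (isOpen_Om.mem_nhds hz)).of_le
      ENat.LEInfty.out
  have hcont : ∀ z ∈ Om, ContinuousAt φ z := fun z hz => (hcdiff z hz).continuousAt
  have hmem0 : ∀ {a : ℂ}, ‖a‖ < 1 → pt a 0 ∈ Om := by
    intro a ha
    refine Or.inl ⟨?_, ?_⟩
    · simpa using ha
    · simp
  refine le_of_forall_gt_imp_ge_of_dense fun B hB => ?_
  -- near `(a, 0)` the function is below `B`
  have h1 : ∀ᶠ p : ℂ × ℂ in 𝓝 (a, 0), φ (pt p.1 p.2) < B := by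
    have h2 : ContinuousAt (fun p : ℂ × ℂ => φ (pt p.1 p.2)) (a, 0) :=
      ContinuousAt.comp (g := φ) (hcont _ (hmem0 ha)) continuous_pt.continuousAt
    exact h2.eventually_lt continuousAt_const hB
  rw [Metric.eventually_nhds_iff] at h1
  obtain ⟨δ, hδ, h1⟩ := h1
  set r : ℝ := min (δ / 2) (‖ζ - a‖) with hr
  have hζa : 0 < ‖ζ - a‖ := norm_pos_iff.2 (sub_ne_zero.2 hne)
  have hr0 : 0 < r := lt_min (by linarith) hζa
  have hrδ : r < δ := lt_of_le_of_lt (min_le_left _ _) (by linarith)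
  have hrζ : r ≤ ‖ζ - a‖ := min_le_right _ _
  -- the inequality on the slice `z₁ = b`
  have key : ∀ᶠ b : ℝ in 𝓝[>] 0, φ (pt ζ (b : ℂ)) ≤
      B + (M - B) * (Real.log ‖ζ - a‖ - Real.log r) / (Real.log (b⁻¹ - 1) - Real.log r) := by
    have hb1 : ∀ᶠ b : ℝ in 𝓝[>] 0, b < min δ (min (1 / 2) ((‖ζ - a‖ + 2)⁻¹)) := by
      refine eventually_nhdsWithin_of_eventually_nhds (eventually_lt_nhds ?_)
      refine lt_min hδ (lt_min (by norm_num) (by positivity))
    filter_upwards [hb1, self_mem_nhdsWithin] with b hb hb0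
    have hb0' : (0 : ℝ) < b := hb0
    have hbδ : b < δ := hb.trans_le (min_le_left _ _)
    have hb2 : b < 1 / 2 := hb.trans_le ((min_le_right _ _).trans (min_le_left _ _))
    have hb3 : b < (‖ζ - a‖ + 2)⁻¹ := hb.trans_le ((min_le_right _ _).trans (min_le_right _ _))
    have hbinv : ‖ζ - a‖ + 2 < b⁻¹ := by
      rw [lt_inv_comm₀ (by positivity) hb0']
      exact hb3
    have hnb : ‖(b : ℂ)‖ = b := by
      rw [Complex.norm_real, Real.norm_of_nonneg hb0'.le]
    have hin : ∀ τ : ℂ, ‖τ - a‖ ≤ b⁻¹ - 1 → pt τ (b : ℂ) ∈ Om := by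
      intro τ hτ
      refine slice_mem ?_ ?_ ?_
      · exact_mod_cast hb0'.ne'
      · rw [hnb]; linarith
      · rw [hnb]
        have h3 : ‖τ‖ < b⁻¹ := by
          have h4 : ‖τ‖ ≤ ‖τ - a‖ + ‖a‖ := by
            have := norm_add_le (τ - a) a
            rwa [sub_add_cancel] at this
          linarith
        calc ‖τ‖ * b < b⁻¹ * b := by gcongr
          _ = 1 := inv_mul_cancel₀ hb0'.ne'
    have hfun : ∀ τ : ℂ, ‖τ - a‖ ≤ b⁻¹ - 1 → ContDiffAt ℝ 2 (fun τ : ℂ => φ (pt τ (b : ℂ))) τ := by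
      intro τ hτ
      refine ContDiffAt.comp (g := φ) τ (hcdiff _ (hin τ hτ)) ?_
      unfold pt
      have : ContDiff ℝ 2 (fun τ : ℂ => τ • (EuclideanSpace.single 0 1 : C2)) :=
        contDiff_id.smul contDiff_const
      exact (contDiff_const.add this).contDiffAt
    refine annulus (f := fun τ => φ (pt τ (b : ℂ))) hr0 (R := b⁻¹ - 1) ?_ ?_ ?_ ?_ ?_ hrζ ?_
    · linarith
    · intro τ _ hτ
      exact hfun τ hτ
    · intro τ _ hτ
      have h5 := levi_line (φ := φ) (c := (b : ℂ) • (EuclideanSpace.single 1 1 : C2))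
        (ξ := EuclideanSpace.single 0 1) (ζ := τ) (hcdiff _ (hin τ hτ)) 1
      unfold pt
      rw [h5]
      exact hφ.psh _ (hin τ hτ) _
    · intro τ hτ
      refine (h1 (y := (τ, (b : ℂ))) ?_).le
      rw [Prod.dist_eq, max_lt_iff]
      constructor
      · simp only
        rw [dist_eq_norm, hτ]
        exact hrδ
      · simp only
        rw [dist_zero_right, hnb]
        exact hbδ
    · intro τ hτ
      exact hM' _ (hin τ hτ.le)
    · linarith
  have hlim1 : Tendsto (fun b : ℝ => φ (pt ζ (b : ℂ))) (𝓝[>] 0) (𝓝 (φ (pt ζ 0))) := by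
    have h2 : ContinuousAt (fun b : ℝ => φ (pt ζ (b : ℂ))) 0 := by
      refine ContinuousAt.comp (g := φ) ?_ ?_
      · simpa using hcont _ (hmem0 hζ)
      · have : Continuous fun b : ℝ => pt ζ (b : ℂ) := by
          unfold pt
          fun_prop
        exact this.continuousAt
    have h3 := h2.tendsto
    simp only [Complex.ofReal_zero] at h3
    exact h3.mono_left nhdsWithin_le_nhds
  have hlim2 : Tendsto (fun b : ℝ => B + (M - B) * (Real.log ‖ζ - a‖ - Real.log r) /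
      (Real.log (b⁻¹ - 1) - Real.log r)) (𝓝[>] 0) (𝓝 (B + 0)) := by
    refine tendsto_const_nhds.add (Tendsto.const_div_atTop ?_ _)
    refine tendsto_atTop_add_const_right _ _ (Real.tendsto_log_atTop.comp ?_)
    exact tendsto_atTop_add_const_right _ _ tendsto_inv_nhdsGT_zero
  rw [add_zero] at hlim2
  exact le_of_tendsto_of_tendsto hlim1 hlim2 key

theorem const_of_memF {φ : C2 → ℝ} (hφ : MemF Om φ) {a ζ : ℂ} (ha : ‖a‖ < 1) (hζ : ‖ζ‖ < 1) :
    φ (pt ζ 0) = φ (pt a 0) :=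
  le_antisymm (le_of_memF hφ ha hζ) (le_of_memF hφ hζ ha)

/-- no competitor is strictly plurisubharmonic on `z₁ = 0` -/
theorem levi_zero {φ : C2 → ℝ} (hφ : MemF Om φ) {a : ℂ} (ha : ‖a‖ < 1) :
    levi φ (pt a 0) (EuclideanSpace.single 0 1) = 0 := by
  have hmem : pt a 0 ∈ Om := Or.inl ⟨by simpa using ha, by simp⟩
  have hcd : ContDiffAt ℝ 2 φ (pt a 0) :=
    ((hφ.smooth _ hmem).contDiffAt (isOpen_Om.mem_nhds hmem)).of_le
      ENat.LEInfty.out
  have h5 := levi_line (φ := φ) (c := (0 : ℂ) • (EuclideanSpace.single 1 1 : C2))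
    (ξ := EuclideanSpace.single 0 1) (ζ := a) hcd 1
  rw [one_smul] at h5
  have h6 : (fun τ : ℂ => φ ((0 : ℂ) • EuclideanSpace.single 1 1 + τ • EuclideanSpace.single 0 1))
      =ᶠ[𝓝 a] fun _ => φ (pt a 0) := by
    have h7 : ∀ᶠ τ : ℂ in 𝓝 a, ‖τ‖ < 1 :=
      (continuous_norm.tendsto a).eventually (eventually_lt_nhds ha)
    filter_upwards [h7] with τ hτ
    exact const_of_memF hφ ha hτ
  rw [levi_congr h6, levi_const] at h5
  exact h5.symm

/-- the function `|z₁|² + |z₀ z₁|²` -/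
noncomputable def psi (z : C2) : ℝ := ‖z 1‖ ^ 2 + ‖z 0 * z 1‖ ^ 2

theorem contDiff_coord (i : Fin 2) : ContDiff ℂ 2 (fun z : C2 => z i) := by fun_prop

theorem contDiff_prod : ContDiff ℂ 2 (fun z : C2 => z 0 * z 1) := by fun_prop

theorem smooth_normsq {g : C2 → ℂ} {n : WithTop ℕ∞} (h : ContDiff ℂ n g) :
    ContDiff ℝ n fun z => ‖g z‖ ^ 2 := (h.restrict_scalars ℝ).norm_sq ℝ

theorem fderiv_coord (i : Fin 2) (z ξ : C2) : fderiv ℂ (fun z : C2 => z i) z ξ = ξ i := by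
  have : HasFDerivAt (fun z : C2 => z i) (EuclideanSpace.proj i : C2 →L[ℂ] ℂ) z :=
    (EuclideanSpace.proj i : C2 →L[ℂ] ℂ).hasFDerivAt
  rw [this.fderiv]
  rfl

theorem fderiv_prod' (z ξ : C2) :
    fderiv ℂ (fun z : C2 => z 0 * z 1) z ξ = z 0 * ξ 1 + z 1 * ξ 0 := by
  have h : ∀ i, HasFDerivAt (fun z : C2 => z i) (EuclideanSpace.proj i : C2 →L[ℂ] ℂ) z := fun i =>
    (EuclideanSpace.proj i : C2 →L[ℂ] ℂ).hasFDerivAt
  have e : HasFDerivAt (fun z : C2 => z 0 * z 1) _ z := (h 0).mul (h 1)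
  rw [e.fderiv]
  simp

theorem levi_psi (z ξ : C2) :
    levi psi z ξ = ‖ξ 1‖ ^ 2 + ‖z 0 * ξ 1 + z 1 * ξ 0‖ ^ 2 := by
  have h := levi_add (f := fun z : C2 => ‖z 1‖ ^ 2) (g := fun z : C2 => ‖z 0 * z 1‖ ^ 2) (z := z)
    (smooth_normsq (contDiff_coord 1)).contDiffAt (smooth_normsq contDiff_prod).contDiffAt ξ
  rw [levi_norm_sq (contDiff_coord 1).contDiffAt, levi_norm_sq contDiff_prod.contDiffAt,
    fderiv_coord, fderiv_prod'] at h
  exact h

theorem psi_memF : MemF Om psi := by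
  refine ⟨?_, ?_, ?_⟩
  · refine ContDiff.contDiffOn ?_
    exact (smooth_normsq (by fun_prop : ContDiff ℂ ∞ fun z : C2 => z 1)).add
      (smooth_normsq (by fun_prop : ContDiff ℂ ∞ fun z : C2 => z 0 * z 1))
  · intro z _ ξ
    rw [levi_psi]
    positivity
  · refine ⟨2, ?_⟩
    rintro _ ⟨z, hz, rfl⟩
    have h1 : ‖z 1‖ < 1 := by
      rcases hz with h | h
      · exact h.2
      · exact h.2.1
    have h2 : ‖z 0 * z 1‖ < 1 := by
      rcases hz with h | h
      · rw [norm_mul]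
        calc ‖z 0‖ * ‖z 1‖ ≤ 1 * ‖z 1‖ := by gcongr; exact h.1.le
          _ < 1 := by rw [one_mul]; exact h.2
      · exact h.2.2
    unfold psi
    nlinarith [norm_nonneg (z 1), norm_nonneg (z 0 * z 1)]

theorem core_Om : core Om = {z : C2 | ‖z 0‖ < 1 ∧ z 1 = 0} := by
  ext z
  constructor
  · rintro ⟨hz, h⟩
    have h0 : z 1 = 0 := by
      by_contra hne
      refine h psi psi_memF fun ξ hξ => ?_
      rw [levi_psi]
      rcases eq_or_ne (ξ 1) 0 with h1 | h1
      · have h2 : ξ 0 ≠ 0 := by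
          intro h2
          apply hξ
          ext i
          fin_cases i
          · exact h2
          · exact h1
        rw [h1, mul_zero, zero_add, norm_zero]
        have : 0 < ‖z 1 * ξ 0‖ := norm_pos_iff.2 (mul_ne_zero hne h2)
        positivity
      · have : 0 < ‖ξ 1‖ := norm_pos_iff.2 h1
        positivity
    refine ⟨?_, h0⟩
    rcases hz with h | h
    · exact h.1
    · exact absurd h0 h.1
  · rintro ⟨h1, h2⟩
    refine ⟨Or.inl ⟨h1, by rw [h2, norm_zero]; norm_num⟩, fun φ hφ hs => ?_⟩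
    have h3 : z = pt (z 0) 0 := by
      conv_lhs => rw [eq_pt z, h2]
    have h4 := hs (EuclideanSpace.single 0 1) (by
      intro h
      have := congrArg (fun v : C2 => v 0) h
      simp at this)
    rw [h3, levi_zero hφ h1] at h4
    exact lt_irrefl _ h4

theorem core_bidisc : core bidisc = ∅ := by
  rw [eq_empty_iff_forall_notMem]
  rintro z ⟨hz, h⟩
  have hlevi : ∀ z ξ : C2, levi (fun z : C2 => ‖z 0‖ ^ 2 + ‖z 1‖ ^ 2) z ξ =
      ‖ξ 0‖ ^ 2 + ‖ξ 1‖ ^ 2 := by
    intro z ξ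
    have h := levi_add (f := fun z : C2 => ‖z 0‖ ^ 2) (g := fun z : C2 => ‖z 1‖ ^ 2) (z := z)
      (smooth_normsq (contDiff_coord 0)).contDiffAt (smooth_normsq (contDiff_coord 1)).contDiffAt ξ
    rw [levi_norm_sq (contDiff_coord 0).contDiffAt, levi_norm_sq (contDiff_coord 1).contDiffAt,
      fderiv_coord, fderiv_coord] at h
    exact h
  refine h (fun z : C2 => ‖z 0‖ ^ 2 + ‖z 1‖ ^ 2) ⟨?_, ?_, ?_⟩ fun ξ hξ => ?_
  · refine ContDiff.contDiffOn ?_
    exact (smooth_normsq (by fun_prop : ContDiff ℂ ∞ fun z : C2 => z 0)).add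
      (smooth_normsq (by fun_prop : ContDiff ℂ ∞ fun z : C2 => z 1))
  · intro z _ ξ
    rw [hlevi]
    positivity
  · refine ⟨2, ?_⟩
    rintro _ ⟨w, hw, rfl⟩
    have h1 := hw.1
    have h2 := hw.2
    nlinarith [norm_nonneg (w 1), norm_nonneg (w 0)]
  · rw [hlevi]
    by_contra hcon
    apply hξ
    have h1 : ‖ξ 0‖ ^ 2 = 0 := by nlinarith [sq_nonneg ‖ξ 0‖, sq_nonneg ‖ξ 1‖]
    have h2 : ‖ξ 1‖ ^ 2 = 0 := by nlinarith [sq_nonneg ‖ξ 0‖, sq_nonneg ‖ξ 1‖]
    ext i
    fin_cases i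
    · simpa using h1
    · simpa using h2

end Pool.Agent.R234.Core
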